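import Pool.Agent.Helper40_ZOL.Stmts
import Pool.Agent.Helper40_ZOL.Kit

/-!
# Row VDEG: an arrow diagram count is of finite degree with respect to crossing changes
-/

namespace Pool.Agent.ZOL.H10

open Finset Pool.Agent.ZOL

theorem vdeg : VDegStmt := by
  intro P m hP w hw A hA
  have h1 : ∀ B, V P (flip B w) = ∑ S ∈ (labels w).powerset, f P (flip B (sub S w)) := by
    intro B
    rw [V, labels_flip]
    exact Finset.sum_congr rfl fun S _ => by rw [sub_flip]
  simp only [h1, Finset.mul_sum]
  rw [Finset.sum_comm]
  refine Finset.sum_eq_zero fun S hS => ?_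
  rw [Finset.mem_powerset] at hS
  by_cases hc : S.card = m
  · obtain ⟨c, hcA, hcS⟩ : ∃ c ∈ A, c ∉ S := by
      by_contra h
      push Not at h
      have := Finset.card_le_card (fun x hx => h x hx : A ⊆ S)
      omega
    have hA' : A = insert c (A.erase c) := (Finset.insert_erase hcA).symm
    rw [hA', Finset.sum_powerset_insert (Finset.notMem_erase c A), ← Finset.sum_add_distrib]
    refine Finset.sum_eq_zero fun B hB => ?_
    have hcB : c ∉ B := fun h => Finset.notMem_erase c A (Finset.mem_powerset.1 hB h)
    rw [Finset.card_insert_of_notMem hcB, pow_succ]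
    have h2 : flip (insert c B) (sub S w) = flip B (sub S w) := by
      apply flip_congr
      rw [labels_sub]
      ext x
      simp only [Finset.mem_inter, Finset.mem_insert]
      constructor
      · rintro ⟨h | h, h3, h4⟩
        · rw [h] at h3
          exact absurd h3 hcS
        · exact ⟨h, h3, h4⟩
      · rintro ⟨h, h3⟩
        exact ⟨Or.inr h, h3⟩
    rw [h2]
    ring
  · refine Finset.sum_eq_zero fun B _ => ?_
    rw [f_eq_zero_of_length hP, mul_zero]
    rw [length_flip, length_sub hw, Finset.inter_eq_left.2 hS]
    omega

end Pool.Agent.ZOL.H10
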